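import Pool.Agent.D0H77.ES.MsS
import Pool.Agent.D0H77.ES.FamJE
import Pool.Agent.W354.GE.NLowE
import Pool.Agent.N880.HD.Core

/-! # From the mean square to the proportion, coset families, short intervals -/

set_option autoImplicit false

open Complex Filter Topology MeasureTheory Set

namespace Pool.Agent.D0H77.ES

open Pool.Agent.D0H77.EM (FF mem_FF)
open H385 (bt wt Rw LF LF_eq Rw_nonneg)
open H370 (NN Nd Ns)
open Pool.Agent.N7.MainC (inner inner_continuous inner_nonneg inner_le)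
open Pool.Agent.N880.QF (Y_int1)

/-- choice of the small parameter -/
lemma choose_sM {R J h κ0 M : ℝ} (hh : 0 < h) (hk : R / h + 2 * h * J < κ0) :
    ∃ s : ℝ, 0 < s ∧ s ≤ 1 / 2 ∧
      R / ((1 - s) * h) + 2 * ((1 - s) * h) * (1 + s) * (J + s) + M * s < κ0 := by
  have hc : ContinuousAt (fun s : ℝ =>
      R / ((1 - s) * h) + 2 * ((1 - s) * h) * (1 + s) * (J + s) + M * s) 0 := by
    apply ContinuousAt.add
    · apply ContinuousAt.add
      · apply ContinuousAt.div continuousAt_const (by fun_prop)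
        simp only [sub_zero, one_mul]
        exact hh.ne'
      · fun_prop
    · fun_prop
  have h0 : (fun s : ℝ =>
      R / ((1 - s) * h) + 2 * ((1 - s) * h) * (1 + s) * (J + s) + M * s) 0 < κ0 := by
    simp only [sub_zero, one_mul, add_zero, mul_one, mul_zero]
    exact hk
  have h1 := hc.eventually_lt_const h0
  rw [Metric.eventually_nhds_iff] at h1
  obtain ⟨ε, hε, h2⟩ := h1
  refine ⟨min (1 / 2) (ε / 2), by positivity, min_le_left _ _, h2 ?_⟩
  rw [Real.dist_eq, sub_zero, abs_of_pos (by positivity)]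
  have := min_le_right (1 / 2) (ε / 2)
  linarith

/-- the numerical part -/
lemma numS {R J s β C1 C2 CM c0 K L H W κ SM SN κ0 I : ℝ} (hR : 0 ≤ R) (hJ : 0 ≤ J) (hs : 0 < s)
    (hβ : 0 < β) (hβ1 : β ≤ 1) (hC1 : 0 < C1) (hC2 : 0 < C2) (hCM : 0 < CM) (hc0 : 0 ≤ c0)
    (hL : 1 ≤ L) (hH : 1 ≤ H) (hW : 0 ≤ W) (hκ0 : 0 ≤ κ) (hκ : κ * K ≤ 4 * H) (hK : 0 < K)
    (hκ00 : 0 < κ0)
    (g1 : 2 * Real.pi * C1 * 4 * (1 / β + 1) ≤ s / 2 * K)
    (g2 : 4 * Real.pi * R * (CM + s) + 2 * Real.pi * C1 * ((1 + c0) / β) ≤ s / 2 * L)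
    (g3 : 2 * Real.pi * C2 * 4 * κ0 ≤
      (κ0 - (R / β + 2 * β * (1 + s) * (J + s) + (4 * Real.pi * R + 1) * s)) / 2 * K)
    (g4 : 2 * Real.pi * C2 * 2 * κ0 ≤
      (κ0 - (R / β + 2 * β * (1 + s) * (J + s) + (4 * Real.pi * R + 1) * s)) / 2 * L)
    (hI : I ≤ (1 + s) * W * (H / (2 * Real.pi)) * (Real.sqrt Real.pi * (β * L) ^ 2 * (J + s)) +
      W * (R * (β * L) * (CM * H + s * H * (β * L + 1))))
    (hM : SM ≤ W * L ^ 2 * R * H / (2 * Real.pi * (β * L)) +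
      2 / (Real.sqrt Real.pi * (β * L)) * I +
      C1 * (W * (L ^ 2 * κ / (β * L) + L * H / (β * L) + κ * L) +
        Real.sqrt W * L * H * (c0 * Real.sqrt W) / (β * L)))
    (hN : W * (H / (2 * Real.pi) * L - C2 * (2 * H + κ * L)) ≤ SN) :
    SM ≤ κ0 * SN := by
  have hpi := Real.pi_pos
  have hL0 : 0 < L := by linarith
  have hH0 : 0 < H := by linarith
  have hsq : 0 < Real.sqrt Real.pi := Real.sqrt_pos.2 hpi
  have hsq1 : 1 ≤ Real.sqrt Real.pi := Real.one_le_sqrt.2 (by linarith [Real.pi_gt_three])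
  obtain ⟨U, hU⟩ : ∃ U : ℝ, U = H / (2 * Real.pi) * L * W := ⟨_, rfl⟩
  have hU0 : 0 ≤ U := by rw [hU]; positivity
  have hWH : W * H = 2 * Real.pi / L * U := by rw [hU]; field_simp
  -- first term
  have e1 : W * L ^ 2 * R * H / (2 * Real.pi * (β * L)) = U * (R / β) := by
    rw [hU]; field_simp
  -- second term
  have e2 : 2 / (Real.sqrt Real.pi * (β * L)) * I ≤
      U * (2 * β * (1 + s) * (J + s)) + 4 * Real.pi * R * (CM + s) / L * U +
        4 * Real.pi * R * s * U := by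
    have h1 := mul_le_mul_of_nonneg_left hI
      (show 0 ≤ 2 / (Real.sqrt Real.pi * (β * L)) by positivity)
    refine h1.trans ?_
    rw [mul_add]
    have h2 : 2 / (Real.sqrt Real.pi * (β * L)) * ((1 + s) * W * (H / (2 * Real.pi)) *
        (Real.sqrt Real.pi * (β * L) ^ 2 * (J + s))) = U * (2 * β * (1 + s) * (J + s)) := by
      rw [hU]; field_simp
    have h3 : 2 / (Real.sqrt Real.pi * (β * L)) * (W * (R * (β * L) *
        (CM * H + s * H * (β * L + 1)))) =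
        2 / Real.sqrt Real.pi * (R * ((CM + s) * (W * H) + s * β * L * (W * H))) := by
      field_simp
      ring
    have h4 : 2 / Real.sqrt Real.pi ≤ 2 := div_le_self (by norm_num) hsq1
    have h5 : 0 ≤ R * ((CM + s) * (W * H) + s * β * L * (W * H)) := by positivity
    have h6 : R * ((CM + s) * (W * H) + s * β * L * (W * H)) ≤
        R * ((CM + s) * (W * H) + s * 1 * L * (W * H)) := by gcongr
    have h7 : 2 * (R * ((CM + s) * (W * H) + s * 1 * L * (W * H))) =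
        4 * Real.pi * R * (CM + s) / L * U + 4 * Real.pi * R * s * U := by
      rw [hWH]; field_simp; ring
    rw [h2, h3]
    have h8 := mul_le_mul_of_nonneg_right h4 h5
    linarith
  -- third term
  have hκK : κ ≤ 4 * H / K := by rw [le_div_iff₀ hK]; exact hκ
  have hκW : κ * W * L ≤ (4 / K) * (2 * Real.pi) * U := by
    calc κ * W * L ≤ (4 * H / K) * W * L := by gcongr
      _ = _ := by rw [hU]; field_simp
  have e3 : C1 * (W * (L ^ 2 * κ / (β * L) + L * H / (β * L) + κ * L) +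
        Real.sqrt W * L * H * (c0 * Real.sqrt W) / (β * L)) ≤
      (2 * Real.pi * C1 * 4 * (1 / β + 1) / K) * U + (2 * Real.pi * C1 * ((1 + c0) / β) / L) * U := by
    have h1 : W * (L ^ 2 * κ / (β * L) + L * H / (β * L) + κ * L) +
        Real.sqrt W * L * H * (c0 * Real.sqrt W) / (β * L) =
        (κ * W * L) * (1 / β + 1) + (W * H) * ((1 + c0) / β) := by
      have hWW : Real.sqrt W * L * H * (c0 * Real.sqrt W) / (β * L) = W * H * c0 / β := by
        have : Real.sqrt W * L * H * (c0 * Real.sqrt W) =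
            (Real.sqrt W * Real.sqrt W) * L * H * c0 := by ring
        rw [this, Real.mul_self_sqrt hW]
        field_simp
      rw [hWW]
      field_simp
      ring
    rw [h1]
    have h2 : (κ * W * L) * (1 / β + 1) ≤ ((4 / K) * (2 * Real.pi) * U) * (1 / β + 1) :=
      mul_le_mul_of_nonneg_right hκW (by positivity)
    calc C1 * ((κ * W * L) * (1 / β + 1) + (W * H) * ((1 + c0) / β))
        ≤ C1 * (((4 / K) * (2 * Real.pi) * U) * (1 / β + 1) + (W * H) * ((1 + c0) / β)) := by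
          gcongr
      _ = _ := by rw [hWH]; field_simp
  have e4 : (2 * Real.pi * C1 * 4 * (1 / β + 1) / K) ≤ s / 2 := by
    rw [div_le_iff₀ hK]; exact g1
  have e5 : (4 * Real.pi * R * (CM + s) + 2 * Real.pi * C1 * ((1 + c0) / β)) / L ≤ s / 2 := by
    rw [div_le_iff₀ hL0]; exact g2
  obtain ⟨a, ha⟩ : ∃ a : ℝ, a = R / β + 2 * β * (1 + s) * (J + s) + (4 * Real.pi * R + 1) * s :=
    ⟨_, rfl⟩
  rw [← ha] at g3 g4
  have hSM : SM ≤ a * U := by
    have h1 := mul_le_mul_of_nonneg_right e4 hU0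
    have h2 := mul_le_mul_of_nonneg_right e5 hU0
    have h3 : (4 * Real.pi * R * (CM + s) + 2 * Real.pi * C1 * ((1 + c0) / β)) / L * U =
        4 * Real.pi * R * (CM + s) / L * U + (2 * Real.pi * C1 * ((1 + c0) / β) / L) * U := by
      rw [add_div, add_mul]
    rw [e1] at hM
    have h4 : a * U = U * (R / β) + U * (2 * β * (1 + s) * (J + s)) + 4 * Real.pi * R * s * U +
        s * U := by rw [ha]; ring
    rw [h4]
    linarith
  have hSN : U - (2 * Real.pi * C2 * 2 / L) * U - (2 * Real.pi * C2 * 4 / K) * U ≤ SN := by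
    refine le_trans ?_ hN
    have h1 : W * (H / (2 * Real.pi) * L - C2 * (2 * H + κ * L)) =
        U - C2 * 2 * (W * H) - C2 * (κ * W * L) := by rw [hU]; ring
    rw [h1, hWH]
    have h2 := mul_le_mul_of_nonneg_left hκW hC2.le
    have h3 : C2 * 2 * (2 * Real.pi / L * U) = (2 * Real.pi * C2 * 2 / L) * U := by ring
    have h4 : C2 * ((4 / K) * (2 * Real.pi) * U) = (2 * Real.pi * C2 * 4 / K) * U := by
      field_simp
    linarith
  have h5 : κ0 * (U - (2 * Real.pi * C2 * 2 / L) * U - (2 * Real.pi * C2 * 4 / K) * U) ≤ κ0 * SN :=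
    mul_le_mul_of_nonneg_left hSN hκ00.le
  have h6 : 2 * Real.pi * C2 * 4 * κ0 / K ≤ (κ0 - a) / 2 := by rw [div_le_iff₀ hK]; exact g3
  have h7 : 2 * Real.pi * C2 * 2 * κ0 / L ≤ (κ0 - a) / 2 := by rw [div_le_iff₀ hL0]; exact g4
  have h8 := mul_le_mul_of_nonneg_right h6 hU0
  have h9 := mul_le_mul_of_nonneg_right h7 hU0
  have h10 : κ0 * (U - (2 * Real.pi * C2 * 2 / L) * U - (2 * Real.pi * C2 * 4 / K) * U) =
      κ0 * U - (2 * Real.pi * C2 * 2 * κ0 / L) * U - (2 * Real.pi * C2 * 4 * κ0 / K) * U := by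
    ring
  rw [h10] at h5
  linarith

set_option maxHeartbeats 4000000 in
theorem coreS_main (hms : S_msS) (h γ κ0 : ℝ) (hh0 : 0 < h) (hh1 : h ≤ 1) (h0 : 0 < γ)
    (hπ : γ < Real.pi)
    (hκ0 : Rw γ 0 / h + 2 * h * (∫ α in (0 : ℝ)..1, α * Rw γ α) < κ0)
    (G : (ℂ → ℂ) → ℝ → ℝ) (hG : FamIneqE γ G) :
    ∃ K : ℝ, 1 ≤ K ∧ ∀ (q : ℕ) [NeZero q] (d : ℕ) (_ : d ∣ q) (ψ : DirichletCharacter ℂ q)
      (_ : ψ.IsPrimitive) (t0 H : ℝ), 0 ≤ t0 → K ≤ H →
      K * Real.sqrt (Real.log (q * (H + t0))) ≤ H → (q * (H + t0)) ^ h ≤ d * H →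
      ∑ χ ∈ FF d ψ, G (FS (LF q χ) t0) H ≤
        κ0 * ∑ χ ∈ FF d ψ, (NN (FS (LF q χ) t0) H (2 * H) : ℝ) := by
  have hpi := Real.pi_pos
  have hpi3 := Real.pi_gt_three
  obtain ⟨A, hA, hgood⟩ := H385.good_dirichlet_U
  obtain ⟨C1, hC1, hfam⟩ := hG A hA
  obtain ⟨C2, hC2, hlow⟩ := Pool.Agent.W354.E.N_lower_E 1 A le_rfl hA
  obtain ⟨Ci, hCi, hinner⟩ := inner_le 1 le_rfl
  obtain ⟨R, hRdef⟩ : ∃ R, R = Rw γ 0 := ⟨_, rfl⟩
  obtain ⟨J, hJdef⟩ : ∃ J, J = ∫ α in (0:ℝ)..1, α * Rw γ α := ⟨_, rfl⟩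
  rw [← hRdef, ← hJdef] at hκ0
  have hR : 0 ≤ R := hRdef ▸ Rw_nonneg γ h0 hπ 0
  have hJ : 0 ≤ J := by
    rw [hJdef]
    apply intervalIntegral.integral_nonneg zero_le_one
    intro α hα
    exact mul_nonneg hα.1 (Rw_nonneg γ h0 hπ α)
  obtain ⟨s, hs, hs1, hsκ⟩ := choose_sM (M := 4 * Real.pi * R + 1) hh0 hκ0
  obtain ⟨LY, hLY, hYint⟩ := Y_int1 γ h0 hπ hs
  obtain ⟨β, hβdef⟩ : ∃ β, β = (1 - s) * h := ⟨_, rfl⟩
  rw [← hβdef] at hsκ
  have hβ : 0 < β := by rw [hβdef]; exact mul_pos (by linarith) hh0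
  have hβ1 : β ≤ 1 := by
    rw [hβdef]
    calc (1 - s) * h ≤ 1 * 1 := mul_le_mul (by linarith) hh1 hh0.le zero_le_one
      _ = 1 := one_mul 1
  obtain ⟨g, hg⟩ : ∃ g : ℝ, g = κ0 - (R / β + 2 * β * (1 + s) * (J + s) +
    (4 * Real.pi * R + 1) * s) := ⟨_, rfl⟩
  have hg0 : 0 < g := by rw [hg]; linarith
  have hκ00 : 0 < κ0 := by
    have : 0 ≤ R / β + 2 * β * (1 + s) * (J + s) + (4 * Real.pi * R + 1) * s := by positivity
    linarith
  obtain ⟨KM, CM, hCM, hKM, hmsb⟩ := hms h s hh0 hh1 hs hs1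
  obtain ⟨c0, hc0⟩ : ∃ c0 : ℝ, c0 = Real.sqrt (Ci + s) + Real.sqrt CM := ⟨_, rfl⟩
  have hc00 : 0 ≤ c0 := by rw [hc0]; positivity
  obtain ⟨L0, q1, q2, q3, q4, q5⟩ : ∃ L0 : ℝ,
      1 ≤ L0 ∧ 1 / β ≤ L0 ∧ LY / β ≤ L0 ∧
      4 * Real.pi * R * (CM + s) + 2 * Real.pi * C1 * ((1 + c0) / β) ≤ s / 2 * L0 ∧
      2 * Real.pi * C2 * 2 * κ0 ≤ g / 2 * L0 := by
    have a3 : 0 ≤ 1 / β := by positivity
    have a4 : 0 ≤ LY / β := by positivity
    have a5 : 0 ≤ (4 * Real.pi * R * (CM + s) + 2 * Real.pi * C1 * ((1 + c0) / β)) * (2 / s) := by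
      positivity
    have a6 : 0 ≤ 2 * Real.pi * C2 * 2 * κ0 * (2 / g) := by positivity
    refine ⟨1 + 1 / β + LY / β +
      (4 * Real.pi * R * (CM + s) + 2 * Real.pi * C1 * ((1 + c0) / β)) * (2 / s) +
      2 * Real.pi * C2 * 2 * κ0 * (2 / g), by linarith, by linarith, by linarith, ?_, ?_⟩
    · have e1 : 4 * Real.pi * R * (CM + s) + 2 * Real.pi * C1 * ((1 + c0) / β) =
          s / 2 * ((4 * Real.pi * R * (CM + s) + 2 * Real.pi * C1 * ((1 + c0) / β)) * (2 / s)) := by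
        field_simp
      refine le_trans (le_of_eq e1) ?_
      refine mul_le_mul_of_nonneg_left ?_ (by positivity)
      linarith
    · have e1 : 2 * Real.pi * C2 * 2 * κ0 =
          g / 2 * (2 * Real.pi * C2 * 2 * κ0 * (2 / g)) := by
        field_simp
      refine le_trans (le_of_eq e1) ?_
      refine mul_le_mul_of_nonneg_left ?_ (by positivity)
      linarith
  obtain ⟨K, k1, k2, k3, k4, k5⟩ : ∃ K : ℝ, KM ≤ K ∧ Real.exp L0 ≤ K ∧ 32 ≤ K ∧
      2 * Real.pi * C1 * 4 * (1 / β + 1) ≤ s / 2 * K ∧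
      2 * Real.pi * C2 * 4 * κ0 ≤ g / 2 * K := by
    have a1 : 0 < Real.exp L0 := Real.exp_pos _
    have a2 : 0 ≤ 2 * Real.pi * C1 * 4 * (1 / β + 1) * (2 / s) := by positivity
    have a3 : 0 ≤ 2 * Real.pi * C2 * 4 * κ0 * (2 / g) := by positivity
    refine ⟨KM + Real.exp L0 + 32 + 2 * Real.pi * C1 * 4 * (1 / β + 1) * (2 / s) +
      2 * Real.pi * C2 * 4 * κ0 * (2 / g), by linarith, by linarith, by linarith, ?_, ?_⟩
    · have e1 : 2 * Real.pi * C1 * 4 * (1 / β + 1) =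
          s / 2 * (2 * Real.pi * C1 * 4 * (1 / β + 1) * (2 / s)) := by
        field_simp
      refine le_trans (le_of_eq e1) ?_
      refine mul_le_mul_of_nonneg_left ?_ (by positivity)
      linarith
    · have e1 : 2 * Real.pi * C2 * 4 * κ0 =
          g / 2 * (2 * Real.pi * C2 * 4 * κ0 * (2 / g)) := by
        field_simp
      refine le_trans (le_of_eq e1) ?_
      refine mul_le_mul_of_nonneg_left ?_ (by positivity)
      linarith
  refine ⟨K, by linarith, ?_⟩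
  intro q _ d hd ψ hψ t0 H ht0 hKH hKL hhT
  have hH1 : 1 ≤ H := by linarith
  have hH0 : 0 < H := by linarith
  have hq1 : (1 : ℝ) ≤ q := by exact_mod_cast Nat.one_le_iff_ne_zero.2 (NeZero.ne q)
  have hqpos : (0 : ℝ) < q := by linarith
  have hT0 : 0 < H + t0 := by linarith
  have hqT : 0 < (q : ℝ) * (H + t0) := by positivity
  have hHqT : H ≤ q * (H + t0) := by
    calc H ≤ 1 * (H + t0) := by linarith
      _ ≤ _ := mul_le_mul_of_nonneg_right hq1 hT0.le
  obtain ⟨L, hL⟩ : ∃ L, L = Real.log (q * (H + t0)) := ⟨_, rfl⟩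
  have hLL0 : L0 ≤ L := by
    rw [hL, Real.le_log_iff_exp_le hqT]
    linarith
  have hL1 : 1 ≤ L := by linarith
  have hL0 : 0 < L := by linarith
  have hexpL : Real.exp L = q * (H + t0) := by rw [hL, Real.exp_log hqT]
  obtain ⟨r, hr0⟩ : ∃ r, r = Real.sqrt L := ⟨_, rfl⟩
  have hrL : r ^ 2 = L := by rw [hr0]; exact Real.sq_sqrt hL0.le
  have hr1 : 1 ≤ r := by rw [hr0]; exact Real.one_le_sqrt.2 hL1
  have hKr : K * r ≤ H := by rw [hr0, hL]; exact hKL
  -- parameters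
  have p1 : 3 ≤ 4 * r := by linarith
  have p2 : 8 * (4 * r) ≤ H := by
    calc 8 * (4 * r) = 32 * r := by ring
      _ ≤ K * r := mul_le_mul_of_nonneg_right k3 (by linarith)
      _ ≤ H := hKr
  have hκ2 : (4 * r) ^ 2 / 2 = 8 * L := by rw [← hrL]; ring
  have p3 : H ≤ Real.exp ((4 * r) ^ 2 / 2) := by
    rw [hκ2]
    refine (hHqT.trans (le_of_eq hexpL.symm)).trans (Real.exp_le_exp.2 (by linarith))
  have p4 : 1 ≤ β * L := by
    have := q2.trans hLL0
    rw [div_le_iff₀ hβ] at this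
    linarith
  have hLexp : L ≤ Real.exp L := by linarith [Real.add_one_le_exp L]
  have hLexp2 : L ^ 2 ≤ Real.exp (2 * L) := by
    have : Real.exp (2 * L) = Real.exp L ^ 2 := by
      rw [← Real.exp_nat_mul]; norm_num
    rw [this]
    exact pow_le_pow_left₀ hL0.le hLexp 2
  have p5 : L ^ 2 * Real.exp (β * L - (4 * r) ^ 2 / 2) ≤ Real.exp (-(β * L)) := by
    rw [hκ2]
    calc L ^ 2 * Real.exp (β * L - 8 * L) ≤ Real.exp (2 * L) * Real.exp (β * L - 8 * L) :=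
          mul_le_mul_of_nonneg_right hLexp2 (Real.exp_pos _).le
      _ = Real.exp (2 * L + (β * L - 8 * L)) := by rw [Real.exp_add]
      _ ≤ _ := by
          apply Real.exp_le_exp.2
          have : β * L ≤ 1 * L := mul_le_mul_of_nonneg_right hβ1 hL0.le
          linarith
  have p6 : L ^ 2 * Real.exp (-(4 * r) ^ 2 / 2) ≤ 1 := by
    have e1 : -(4 * r) ^ 2 / 2 = -(8 * L) := by rw [← hrL]; ring
    rw [e1]
    calc L ^ 2 * Real.exp (-(8 * L)) ≤ Real.exp (2 * L) * Real.exp (-(8 * L)) :=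
          mul_le_mul_of_nonneg_right hLexp2 (Real.exp_pos _).le
      _ = Real.exp (2 * L + -(8 * L)) := by rw [Real.exp_add]
      _ ≤ Real.exp 0 := Real.exp_le_exp.2 (by linarith)
      _ = 1 := Real.exp_zero
  have hlcH : lcS (q : ℝ) t0 H = L := by rw [hL]; rfl
  have hlcg : Pool.Agent.W354.LogC (lcS (q : ℝ) t0) := lcS_good hq1 ht0
  have hprim : ∀ χ ∈ FF d ψ, χ.IsPrimitive := fun χ hχ => (mem_FF.1 hχ).1
  have hgoodE : ∀ χ ∈ FF d ψ, Pool.Agent.W354.GoodE 1 A (lcS (q : ℝ) t0) (FS (LF q χ) t0)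
        (aS (fun n => χ (n : ZMod q) * (ArithmeticFunction.vonMangoldt n : ℂ)) t0) := by
    intro χ hχ
    rw [LF_eq]
    exact good_shift hq1 (hgood q χ (hprim χ hχ)) ht0
  obtain ⟨W, hWd⟩ : ∃ W : ℝ, W = ((FF d ψ).card : ℝ) := ⟨_, rfl⟩
  have hW0 : 0 ≤ W := by rw [hWd]; exact Nat.cast_nonneg _
  have hW : ∑ _χ ∈ FF d ψ, (1 : ℝ) = W := by
    rw [hWd, Finset.sum_const, nsmul_eq_mul, mul_one]
  obtain ⟨Yf, hYf⟩ : ∃ Yf : ℝ → ℝ, Yf = fun u => (1 + s) * W * (H / (2 * Real.pi)) *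
      inner 1 u + W * (CM * H + s * H * (u + 1)) := ⟨_, rfl⟩
  have hms' : ∀ u ∈ Set.Icc 0 (β * L),
        ∫ t : ℝ, ∑ χ ∈ FF d ψ, (1 : ℝ) *
          ‖∑' n : ℕ, aS (fun n => χ (n : ZMod q) * (ArithmeticFunction.vonMangoldt n : ℂ)) t0 n *
            ((Real.sqrt n : ℂ)⁻¹ * bt H u t (Real.log n))‖ ^ 2 ≤ Yf u := by
    intro u hu
    have h1 := hmsb q d hd ψ hψ t0 H u ht0 (k1.trans hKH)
      (le_trans (mul_le_mul_of_nonneg_right k1 (Real.sqrt_nonneg _)) hKL) hhT hu.1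
      (by rw [← hL, ← hβdef]; exact hu.2)
    rw [hYf]
    refine h1.trans (le_of_eq ?_)
    rw [hWd]; ring
  have hbd : ∀ u ∈ Set.Icc 0 (β * L), Yf u ≤ H * ((W * (Ci + s)) * (u + 1) + W * CM) := by
    intro u hu
    rw [hYf]
    have hu0 : 0 ≤ u := hu.1
    have h1 := hinner u hu0
    have h2 : (1 + s) * W * (H / (2 * Real.pi)) * inner 1 u ≤ (W * H) * (Ci * (u + 1)) := by
      have e1 : (1 + s) * W * (H / (2 * Real.pi)) = (W * H) * ((1 + s) / (2 * Real.pi)) := by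
        field_simp
      rw [e1]
      have e2 : (1 + s) / (2 * Real.pi) ≤ 1 := by
        rw [div_le_one (by positivity)]; linarith
      have e3 : (W * H) * ((1 + s) / (2 * Real.pi)) ≤ W * H :=
        mul_le_of_le_one_right (by positivity) e2
      exact mul_le_mul e3 h1 (inner_nonneg 1 u) (by positivity)
    have h5 : H * ((W * (Ci + s)) * (u + 1) + W * CM) =
      (W * H) * (Ci * (u + 1)) + W * (CM * H + s * H * (u + 1)) := by ring
    rw [h5]
    exact add_le_add h2 le_rfl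
  have hYi : IntervalIntegrable Yf volume 0 (β * L) := by
    have hc2 : Continuous (inner 1) := inner_continuous one_pos
    rw [hYf]
    exact Continuous.intervalIntegrable (by fun_prop) _ _
  have hy1 : 0 ≤ W * (Ci + s) := by positivity
  have hy2 : 0 ≤ W * CM := by positivity
  have k1' := hfam (FF d ψ) (fun _ => (1 : ℝ)) (fun _ => lcS (q : ℝ) t0)
    (fun χ => FS (LF q χ) t0)
    (fun χ => aS (fun n => χ (n : ZMod q) * (ArithmeticFunction.vonMangoldt n : ℂ)) t0)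
    H (4 * r) (β * L) L (W * (Ci + s)) (W * CM) Yf
    (fun χ hχ => ⟨zero_le_one, hlcg, hgoodE χ hχ, le_of_eq hlcH⟩) p1 p2 p3 p4 hL1 p5 hy1 hy2
    hms' hbd hYi
  -- lower bound for the number of zeros
  have hN : W * (H / (2 * Real.pi) * L - C2 * (2 * H + 4 * r * L)) ≤
      ∑ χ ∈ FF d ψ, (NN (FS (LF q χ) t0) H (2 * H) : ℝ) := by
    have : W * (H / (2 * Real.pi) * L - C2 * (2 * H + 4 * r * L)) =
        ∑ _χ ∈ FF d ψ, (H / (2 * Real.pi) * L - C2 * (2 * H + 4 * r * L)) := by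
      rw [Finset.sum_const, nsmul_eq_mul, hWd]
    rw [this]
    refine Finset.sum_le_sum (fun χ hχ => ?_)
    have hl := hlow _ _ _ hlcg (hgoodE χ hχ) H (4 * r) p1 p2
    rw [hlcH, one_mul] at hl
    refine le_trans ?_ hl
    have a3 : H * L ^ 2 * Real.exp (-(4 * r) ^ 2 / 2) ≤ H := by
      calc _ = H * (L ^ 2 * Real.exp (-(4 * r) ^ 2 / 2)) := by ring
        _ ≤ H * 1 := mul_le_mul_of_nonneg_left p6 hH0.le
        _ = H := mul_one H
    have a4 : C2 * (H + 4 * r * L + H * L ^ 2 * Real.exp (-(4 * r) ^ 2 / 2)) ≤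
        C2 * (2 * H + 4 * r * L) := mul_le_mul_of_nonneg_left (by linarith) hC2.le
    linarith
  have hI := hYint (β * L) ((1 + s) * W * (H / (2 * Real.pi))) W (CM * H) (s * H)
      (by have := q3.trans hLL0; rw [div_le_iff₀ hβ] at this; linarith) (by positivity)
      hW0 (by positivity) (by positivity)
  rw [← hJdef, ← hRdef] at hI
  simp only [one_mul] at k1'
  rw [hW, ← hRdef] at k1'
  have hsqW : Real.sqrt (W * (Ci + s)) + Real.sqrt (W * CM) = c0 * Real.sqrt W := by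
    rw [Real.sqrt_mul hW0, Real.sqrt_mul hW0, hc0]
    ring
  rw [hsqW, hYf] at k1'
  refine numS (κ := 4 * r) (K := K) (L := L) (H := H) (W := W) (C1 := C1) (C2 := C2) (CM := CM)
    (c0 := c0) hR hJ hs hβ hβ1 hC1 hC2 hCM hc00 hL1 hH1 hW0 (by linarith) ?_ (by linarith)
    hκ00 k4 (q4.trans ?_) (by rw [← hg]; exact k5)
    (by rw [← hg]; exact q5.trans (mul_le_mul_of_nonneg_left hLL0 (by positivity))) hI k1' hN
  · calc 4 * r * K = 4 * (K * r) := by ring
      _ ≤ 4 * H := by linarith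
  · exact mul_le_mul_of_nonneg_left hLL0 (by positivity)

end Pool.Agent.D0H77.ES
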