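import Pool.Agent.D0H77.EM.PerJ
import Pool.Agent.W354.GE.GoodE
import Pool.Agent.H385R2.DirU

/-! Vertical shifts of L-functions. -/

set_option autoImplicit false

open Complex Filter Topology Set MeasureTheory
open H370 (zset mult NN Nd Ns)

namespace Pool.Agent.D0H77.ES

open Pool.Agent.W354
open Pool.Agent.D0H77.EM (GJ EX NF)
open H385

/-- the shifted function -/
noncomputable def FS (F : ℂ → ℂ) (t0 : ℝ) : ℂ → ℂ := fun s => F (s + I * t0)

/-- the shifted logarithmic conductor -/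
noncomputable def lcS (Q t0 : ℝ) : ℝ → ℝ := fun x => Real.log (Q * (x + t0))

lemma lcS_good {Q t0 : ℝ} (hQ : 1 ≤ Q) (ht : 0 ≤ t0) : LogC (lcS Q t0) where
  mono x y hx hxy := by
    unfold lcS
    apply Real.log_le_log (by positivity)
    gcongr
  low x hx := by
    unfold lcS
    apply Real.log_le_log (by linarith)
    have : 1 * (x + t0) ≤ Q * (x + t0) := mul_le_mul_of_nonneg_right hQ (by linarith)
    linarith
  slow x y hx hxy := by
    unfold lcS
    have hx0 : 0 < x := by linarith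
    have hy0 : 0 < y := by linarith
    rw [← Real.log_mul (by positivity) (by positivity)]
    apply Real.log_le_log (by positivity)
    have h1 : y + t0 ≤ (x + t0) * (y / x) := by
      rw [mul_div_assoc', le_div_iff₀ hx0]
      nlinarith
    calc Q * (y + t0) ≤ Q * ((x + t0) * (y / x)) := mul_le_mul_of_nonneg_left h1 (by linarith)
      _ = _ := by ring

lemma FS_order (F : ℂ → ℂ) (t0 : ℝ) (s : ℂ) :
    analyticOrderAt (FS F t0) s = analyticOrderAt F (s + I * t0) := by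
  have hg : AnalyticAt ℂ (fun z : ℂ => z + I * t0) s := by fun_prop
  have hd : deriv (fun z : ℂ => z + I * t0) s ≠ 0 := by
    have : HasDerivAt (fun z : ℂ => z + I * t0) 1 s := (hasDerivAt_id s).add_const _
    rw [this.deriv]
    exact one_ne_zero
  exact analyticOrderAt_comp_of_deriv_ne_zero (f := F) hg hd

lemma FS_mult (F : ℂ → ℂ) (t0 : ℝ) (s : ℂ) : mult (FS F t0) s = mult F (s + I * t0) := by
  unfold mult analyticOrderNatAt
  rw [FS_order]

lemma FS_deriv (F : ℂ → ℂ) (t0 : ℝ) (s : ℂ) : deriv (FS F t0) s = deriv F (s + I * t0) := by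
  unfold FS
  exact deriv_comp_add_const F (I * t0) s

lemma sh_re (s : ℂ) (t0 : ℝ) : (s + I * t0).re = s.re := by simp

lemma sh_im (s : ℂ) (t0 : ℝ) : (s + I * t0).im = s.im + t0 := by simp

lemma mem_zset_FS {F : ℂ → ℂ} {t0 a b : ℝ} {s : ℂ} :
    s ∈ zset (FS F t0) a b ↔ s + I * t0 ∈ zset F (t0 + a) (t0 + b) := by
  unfold zset FS
  simp only [Set.mem_ofPred_eq, sh_re, sh_im]
  constructor
  · rintro ⟨h1, h2, h3, h4, h5⟩
    exact ⟨h1, h2, by linarith, by linarith, h5⟩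
  · rintro ⟨h1, h2, h3, h4, h5⟩
    exact ⟨h1, h2, by linarith, by linarith, h5⟩

lemma zset_FS (F : ℂ → ℂ) (t0 a b : ℝ) :
    (fun s : ℂ => s + I * t0) '' zset (FS F t0) a b = zset F (t0 + a) (t0 + b) := by
  ext z
  constructor
  · rintro ⟨s, hs, rfl⟩
    exact mem_zset_FS.1 hs
  · intro hz
    refine ⟨z - I * t0, ?_, by simp⟩
    rw [mem_zset_FS]
    simpa using hz

lemma sh_inj (t0 : ℝ) : Function.Injective (fun s : ℂ => s + I * t0) :=
  fun _ _ h => add_right_cancel h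

/-- sums over zeros -/
lemma fsum_FS (F : ℂ → ℂ) (t0 a b : ℝ) (g : ℝ → ℕ → ℕ) :
    ∑ᶠ s ∈ zset (FS F t0) a b, g s.re (mult (FS F t0) s) =
      ∑ᶠ s ∈ zset F (t0 + a) (t0 + b), g s.re (mult F s) := by
  rw [← zset_FS, finsum_mem_image ((sh_inj t0).injOn)]
  refine finsum_congr fun s => finsum_congr fun _ => ?_
  rw [FS_mult, sh_re]

lemma ncard_FS (F : ℂ → ℂ) (t0 a b : ℝ) (P : ℝ → ℕ → Prop) :
    {s : ℂ | s ∈ zset (FS F t0) a b ∧ P s.re (mult (FS F t0) s)}.ncard =
      {s : ℂ | s ∈ zset F (t0 + a) (t0 + b) ∧ P s.re (mult F s)}.ncard := by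
  rw [← Set.ncard_image_of_injective _ (sh_inj t0)]
  congr 1
  ext z
  constructor
  · rintro ⟨s, ⟨h1, h2⟩, rfl⟩
    rw [FS_mult] at h2
    refine ⟨mem_zset_FS.1 h1, ?_⟩
    rw [sh_re]
    exact h2
  · rintro ⟨h1, h2⟩
    refine ⟨z - I * t0, ⟨?_, ?_⟩, by simp⟩
    · rw [mem_zset_FS]
      simpa using h1
    · rw [FS_mult]
      have : (z - I * t0).re = z.re := by simp
      rw [this]
      simpa using h2

lemma NN_FS (F : ℂ → ℂ) (t0 a b : ℝ) : NN (FS F t0) a b = NN F (t0 + a) (t0 + b) := by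
  unfold NN
  exact fsum_FS F t0 a b (fun _ m => m)

lemma Nd_FS (F : ℂ → ℂ) (t0 a b : ℝ) : Nd (FS F t0) a b = Nd F (t0 + a) (t0 + b) := by
  unfold Nd
  rw [← zset_FS, Set.ncard_image_of_injective _ (sh_inj t0)]

lemma Ns_FS (F : ℂ → ℂ) (t0 a b : ℝ) : Ns (FS F t0) a b = Ns F (t0 + a) (t0 + b) := by
  unfold Ns
  exact ncard_FS F t0 a b (fun x m => x = 1 / 2 ∧ m = 1)

lemma NF_FS (F : ℂ → ℂ) (t0 a b : ℝ) : NF (FS F t0) a b = NF F (t0 + a) (t0 + b) := by
  unfold NF
  exact ncard_FS F t0 a b (fun x _ => x ≠ 1 / 2)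

lemma EX_FS (j : ℕ) (F : ℂ → ℂ) (t0 a b : ℝ) :
    EX j (FS F t0) a b = EX j F (t0 + a) (t0 + b) := by
  unfold EX
  exact fsum_FS F t0 a b (fun x m => if x = 1 / 2 then m - (j + 1) else m - 1)

/-- the coefficients of the shifted function -/
noncomputable def aS (a : ℕ → ℂ) (t0 : ℝ) : ℕ → ℂ := fun n => a n * (n : ℂ) ^ (-(I * t0))

lemma aS_norm {a : ℕ → ℂ} (ha : ∀ n, ‖a n‖ ≤ ArithmeticFunction.vonMangoldt n) (t0 : ℝ) (n : ℕ) :
    ‖aS a t0 n‖ ≤ ArithmeticFunction.vonMangoldt n := by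
  unfold aS
  rcases Nat.eq_zero_or_pos n with rfl | hn
  · have := ha 0
    rw [norm_mul]
    have h0 : ‖a 0‖ = 0 := le_antisymm (by simpa using this) (norm_nonneg _)
    rw [h0]
    simp
  · rw [norm_mul, Complex.norm_natCast_cpow_of_pos hn]
    have : (-(I * (t0 : ℂ))).re = 0 := by simp
    rw [this, Real.rpow_zero, mul_one]
    exact ha n

theorem good_shift {A Q : ℝ} {F : ℂ → ℂ} {a : ℕ → ℂ} (hQ : 1 ≤ Q) (h : GoodU A Q F a)
    {t0 : ℝ} (ht : 0 ≤ t0) : GoodE 1 A (lcS Q t0) (FS F t0) (aS a t0) where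
  an s hs := by
    have h1 : AnalyticAt ℂ F (s + I * t0) := h.an _ (by rw [sh_im]; linarith)
    have hg : AnalyticAt ℂ (fun z : ℂ => z + I * t0) s := by fun_prop
    exact AnalyticAt.comp (g := F) (f := fun z : ℂ => z + I * t0) h1 hg
  growth s h1 h2 h3 := by
    unfold FS lcS
    have h4 := h.growth (s + I * t0) (by rw [sh_re]; exact h1) (by rw [sh_re]; exact h2)
      (by rw [sh_im]; linarith)
    refine h4.trans (le_of_eq ?_)
    rw [sh_im, Real.rpow_def_of_pos (by positivity), mul_comm A (Real.log _)]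
  lower t h1 := by
    have h2 := h.lower (t + t0) (by linarith)
    unfold FS
    have e : (⟨2, t⟩ : ℂ) + I * t0 = (⟨2, t + t0⟩ : ℂ) := by
      apply Complex.ext <;> simp
    rw [e]
    exact h2
  nzr s h1 h2 := h.nzr _ (by rw [sh_re]; exact h1) (by rw [sh_im]; linarith)
  nzl s h1 h2 := h.nzl _ (by rw [sh_re]; exact h1) (by rw [sh_im]; linarith)
  symm s h1 h2 h3 := by
    rw [FS_order, FS_order]
    have e : 1 - (starRingEnd ℂ) s + I * t0 = 1 - (starRingEnd ℂ) (s + I * t0) := by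
      rw [map_add, map_mul, Complex.conj_I, Complex.conj_ofReal]
      ring
    rw [e]
    exact h.symm _ (by rw [sh_re]; exact h1) (by rw [sh_re]; exact h2) (by rw [sh_im]; linarith)
  ha n := by
    rw [one_mul]
    exact aS_norm h.ha t0 n
  ld s h1 h2 := by
    rw [FS_deriv]
    unfold FS
    rw [h.ld (s + I * t0) (by rw [sh_re]; exact h1) (by rw [sh_im]; linarith)]
    congr 1
    refine tsum_congr fun n => ?_
    unfold aS
    rcases Nat.eq_zero_or_pos n with rfl | hn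
    · have := h.ha 0
      have h0 : a 0 = 0 := by
        rw [← norm_eq_zero]
        exact le_antisymm (by simpa using this) (norm_nonneg _)
      rw [h0]
      simp
    · have hn0 : (n : ℂ) ≠ 0 := by exact_mod_cast hn.ne'
      rw [mul_assoc, ← Complex.cpow_add _ _ hn0]
      congr 2
      ring
  left s h1 h2 h3 h4 := by
    have h5 := h.left (s + I * t0) (by rw [sh_re]; exact h1) (by rw [sh_re]; exact h2)
      (by rw [sh_im]; linarith) h4
    have e : 1 - (starRingEnd ℂ) s + I * t0 = 1 - (starRingEnd ℂ) (s + I * t0) := by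
      rw [map_add, map_mul, Complex.conj_I, Complex.conj_ofReal]
      ring
    rw [FS_deriv, FS_deriv]
    unfold FS lcS
    rw [e, one_mul]
    rw [sh_im] at h5
    exact h5

end Pool.Agent.D0H77.ES
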