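import Pool.Agent.D0H77.EM.Ms
import Pool.Agent.D0H77.ES.Shift

/-! # The mean square over a coset of primitive characters, short intervals in the height -/

set_option autoImplicit false

open Complex Filter Topology MeasureTheory Set

namespace Pool.Agent.D0H77.ES

open Pool.Agent.D0H77.EM (FF FF_card block_est)
open H385 (bt wt Rw bt_norm wt_nonneg wt_le_one bt_sq_int wt_sq_int bt_cont)
open Pool.Agent.N880.QF (PP mem_PP yy yy_sq yy_abs card_PP sq_add_le)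
open Pool.Agent.N880.HD (block_int main_sum_integrable thr S_gauss S_winC)

lemma num_msS {δ s Tp I1 C2 C5 u T W CR C3 κ θ : ℝ} (hδ : 0 < δ)
    (hδs : δ = s / 20) (hs1 : s ≤ 1 / 2) (hTp : 0 ≤ Tp)
    (hI1 : 0 ≤ I1) (hC2 : 0 < C2) (hC5 : 0 < C5) (hu : 0 ≤ u)
    (hκ : κ = θ * T) (hθ : 0 < θ) (hθ1 : θ * (16 * C2 * C5) ≤ s) (hT : 1 ≤ T) (hW0 : 0 ≤ W)
    (hCR : 0 < CR) (hC3 : 0 < C3) :
    (1 + δ) * ((1 + δ) * (((1 + δ) * ((1 + δ) * W) + δ * W)) * Tp * I1 +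
      C2 * ((1 + δ) * ((1 + δ) * W) + δ * W) * κ * (C5 * (u + 1)) +
      C2 * W * T * 4) + (1 + 1 / δ) * (CR ^ 2 * W) * (T + C3) ≤
    (1 + s) * W * Tp * I1 +
      (8 * C2 + (1 + 1 / δ) * CR ^ 2 * (1 + C3)) * W * T + s * W * T * (u + 1) := by
  have hd2 : δ ≤ 1 / 40 := by rw [hδs]; linarith
  have hA1 : (1 + δ) * (1 + δ) + δ ≤ 1 + 4 * δ := by nlinarith
  have h1 : (1 + δ) * ((1 + δ) * (((1 + δ) * ((1 + δ) * W) + δ * W)) * Tp * I1) ≤
      (1 + s) * W * Tp * I1 := by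
    have h2 : (1 + δ) * ((1 + δ) * ((1 + δ) * (1 + δ) + δ)) ≤ 1 + s := by
      have e1 : (1 + δ) * (1 + δ) ≤ 1 + 3 * δ := by nlinarith
      have e2 : (1 + δ) * ((1 + δ) * ((1 + δ) * (1 + δ) + δ)) ≤ (1 + 3 * δ) * (1 + 4 * δ) := by
        rw [← mul_assoc]
        exact mul_le_mul e1 hA1 (by positivity) (by positivity)
      have e3 : (1 + 3 * δ) * (1 + 4 * δ) ≤ 1 + 8 * δ := by nlinarith
      have e4 : 8 * δ ≤ s := by rw [hδs] at hδ ⊢; linarith
      linarith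
    have h3 : 0 ≤ W * Tp * I1 := by positivity
    calc _ = ((1 + δ) * ((1 + δ) * ((1 + δ) * (1 + δ) + δ))) * (W * Tp * I1) := by ring
      _ ≤ (1 + s) * (W * Tp * I1) := mul_le_mul_of_nonneg_right h2 h3
      _ = _ := by ring
  have h4 : (1 + δ) * (C2 * ((1 + δ) * ((1 + δ) * W) + δ * W) * κ * (C5 * (u + 1))) ≤
      s * W * T * (u + 1) := by
    have h5 : (1 + δ) * ((1 + δ) * (1 + δ) + δ) ≤ 4 := by nlinarith
    have h6 : 0 ≤ W * T * (u + 1) := by positivity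
    rw [hκ]
    calc _ = ((1 + δ) * ((1 + δ) * (1 + δ) + δ)) * (θ * C2 * C5) * (W * T * (u + 1)) := by ring
      _ ≤ 4 * (θ * C2 * C5) * (W * T * (u + 1)) := by gcongr
      _ = (θ * (16 * C2 * C5)) / 4 * (W * T * (u + 1)) := by ring
      _ ≤ s * (W * T * (u + 1)) := by
          apply mul_le_mul_of_nonneg_right _ h6
          have : 0 < θ * (16 * C2 * C5) := by positivity
          linarith
      _ = _ := by ring
  have h7 : (1 + δ) * (C2 * W * T * 4) ≤ (8 * C2) * W * T := by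
    calc _ ≤ 2 * (C2 * W * T * 4) := mul_le_mul_of_nonneg_right (by linarith) (by positivity)
      _ = _ := by ring
  have h8 : (1 + 1 / δ) * (CR ^ 2 * W) * (T + C3) ≤ ((1 + 1 / δ) * CR ^ 2 * (1 + C3)) * W * T := by
    have h9 : T + C3 ≤ (1 + C3) * T := by nlinarith
    calc _ ≤ (1 + 1 / δ) * (CR ^ 2 * W) * ((1 + C3) * T) :=
          mul_le_mul_of_nonneg_left h9 (by positivity)
      _ = _ := by ring
  have e0 : (8 * C2 + (1 + 1 / δ) * CR ^ 2 * (1 + C3)) * W * T =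
    (8 * C2) * W * T + ((1 + 1 / δ) * CR ^ 2 * (1 + C3)) * W * T := by
    ring
  rw [e0, mul_add, mul_add]
  linarith

/-- the mean square over the family; `L = log (q (H + t0))` -/
def S_msS : Prop := ∀ (h s : ℝ), 0 < h → h ≤ 1 → 0 < s → s ≤ 1 / 2 → ∃ K C : ℝ, 0 < C ∧ 1 ≤ K ∧
  ∀ (q : ℕ) [NeZero q] (d : ℕ) (_ : d ∣ q) (ψ : DirichletCharacter ℂ q) (_ : ψ.IsPrimitive)
    (t0 H u : ℝ), 0 ≤ t0 → K ≤ H → K * Real.sqrt (Real.log (q * (H + t0))) ≤ H →
    (q * (H + t0)) ^ h ≤ d * H → 0 ≤ u → u ≤ (1 - s) * h * Real.log (q * (H + t0)) →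
    ∫ t : ℝ, ∑ χ ∈ FF d ψ, (1 : ℝ) * ‖∑' n : ℕ, aS (fun n => χ (n : ZMod q) *
        (ArithmeticFunction.vonMangoldt n : ℂ)) t0 n *
        ((Real.sqrt n : ℂ)⁻¹ * bt H u t (Real.log n))‖ ^ 2 ≤
      (1 + s) * (FF d ψ).card * (H / (2 * Real.pi)) * Pool.Agent.N7.MainC.inner 1 u +
        C * (FF d ψ).card * H + s * (FF d ψ).card * H * (u + 1)

theorem msS_main (hgauss : S_gauss) (hwin : S_winC)
    (hrest : Pool.Agent.N880.QF.S_rest) : S_msS := by
  intro h s hh0 hh1 hs hs1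
  obtain ⟨δ, hδ⟩ : ∃ δ, δ = s / 20 := ⟨_, rfl⟩
  have hδ0 : 0 < δ := by rw [hδ]; positivity
  have hδ1 : δ ≤ 1 := by rw [hδ]; linarith
  obtain ⟨Cg, hCg, hg⟩ := hgauss δ hδ0
  obtain ⟨C2, κ0, d0, hC2, hκ0, hd0, hw⟩ := hwin δ hδ0
  obtain ⟨CR, hCR, hr⟩ := hrest 0 (s * h / 4) (by positivity)
  obtain ⟨C3, hC3, hwt⟩ := wt_sq_int
  obtain ⟨C5, hC5, hcr⟩ := H385.lam_sq_crude
  obtain ⟨Cd, hCd, hdiv⟩ := H353.divisor_bound_real (s * h / 16) (by positivity)
  obtain ⟨θ, hθ0, hθd, hθ1⟩ : ∃ θ : ℝ, 0 < θ ∧ θ ≤ d0 ∧ θ * (16 * C2 * C5) ≤ s := by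
    refine ⟨min d0 (s / (16 * C2 * C5)), lt_min hd0 (by positivity), min_le_left _ _, ?_⟩
    rw [← le_div_iff₀ (by positivity)]
    exact min_le_right _ _
  obtain ⟨L1, hL1⟩ := thr (s := 3 / 4 * (s * h)) (e0 := 2 * δ * θ / (3 * Cd ^ 3)) (κ0 := κ0)
    (d0 := d0) (by positivity) (by positivity) hCg hδ0
  obtain ⟨L2, hL2⟩ : ∃ L2 : ℝ, ∀ L : ℝ, L2 ≤ L → Cg * Real.exp (-(3 / 2 * L)) ≤ δ := by
    have h3 : Tendsto (fun L : ℝ => Cg * Real.exp (-(3 / 2 * L))) atTop (𝓝 0) := by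
      have h4 : Tendsto (fun L : ℝ => 3 / 2 * L) atTop atTop :=
        tendsto_id.const_mul_atTop (by norm_num)
      have := ((Real.tendsto_exp_neg_atTop_nhds_zero).comp h4).const_mul Cg
      rwa [mul_zero] at this
    obtain ⟨L2, hL2⟩ := Filter.eventually_atTop.1 ((h3.eventually (gt_mem_nhds hδ0)).mono
      fun _ h => h.le)
    exact ⟨L2, hL2⟩
  obtain ⟨K, k1, k2, k3, k4, k5⟩ : ∃ K : ℝ, 1 ≤ K ∧ Real.exp L1 ≤ K ∧ Real.exp L2 ≤ K ∧
      κ0 / θ ≤ K ∧ 10 / θ ≤ K := by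
    have a1 := Real.exp_pos L1
    have a2 := Real.exp_pos L2
    have a3 : 0 ≤ κ0 / θ := by positivity
    have a4 : 0 ≤ 10 / θ := by positivity
    exact ⟨1 + Real.exp L1 + Real.exp L2 + κ0 / θ + 10 / θ, by linarith, by linarith, by linarith,
      by linarith, by linarith⟩
  refine ⟨K, 8 * C2 + (1 + 1 / δ) * CR ^ 2 * (1 + C3), by positivity, k1, ?_⟩
  intro q _ d hd ψ hψ t0 H u ht0 hKH hKL hhT hu0 hu
  have hq0 : q ≠ 0 := NeZero.ne q
  have hq1 : (1 : ℝ) ≤ q := by exact_mod_cast Nat.one_le_iff_ne_zero.2 hq0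
  have hqpos : (0 : ℝ) < q := by linarith
  have hH1 : 1 ≤ H := k1.trans hKH
  have hH0 : 0 < H := by linarith
  obtain ⟨T, hT⟩ : ∃ T, T = H + t0 := ⟨_, rfl⟩
  rw [← hT] at hKL hhT hu
  have hHT : H ≤ T := by rw [hT]; linarith
  have hT1 : 1 ≤ T := by linarith
  have hT0 : 0 < T := by linarith
  have hqT : 0 < (q : ℝ) * T := by positivity
  have hTqT : T ≤ q * T := le_mul_of_one_le_left hT0.le hq1
  obtain ⟨L, hL⟩ : ∃ L, L = Real.log (q * T) := ⟨_, rfl⟩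
  rw [← hL] at hKL hu
  have hLL1 : L1 ≤ L := by
    rw [hL, Real.le_log_iff_exp_le hqT]
    linarith
  have hLL2 : L2 ≤ L := by
    rw [hL, Real.le_log_iff_exp_le hqT]
    linarith
  obtain ⟨t1, _, _, _, t5⟩ := hL1 L hLL1
  have t2 := hL2 L hLL2
  have hL0 : 0 < L := by linarith
  have hexpL : Real.exp L = q * T := by rw [hL, Real.exp_log hqT]
  have hsh : 0 < s * h := by positivity
  have hsh1 : s * h ≤ 1 / 2 := by nlinarith
  have hu2 : u ≤ h * L - s * h * L := by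
    have e1 : (1 - s) * h * L = h * L - s * h * L := by ring
    linarith
  have hhL1 : h * L ≤ L := mul_le_of_le_one_left hL0.le hh1
  have hshL : 0 ≤ s * h * L := by positivity
  have huL : u ≤ L := by linarith
  have hexp1 : u + s * h / 4 * L ≤ h * L + -(3 / 4 * (s * h) * L) := by linarith
  have hexp2 : u + s * h / 4 * L ≤ 3 * L := by
    have : 0 ≤ 3 / 4 * (s * h) * L := by positivity
    linarith
  obtain ⟨P, hP⟩ : ∃ P, P = PP 0 (s * h / 4) L u := ⟨_, rfl⟩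
  have hcard : (P.card : ℝ) ≤ Real.exp (3 * L) := by
    rw [hP]
    refine card_PP (Real.one_le_exp (by positivity)) ?_
    rw [Real.log_exp]; exact hexp2
  -- parameters
  obtain ⟨r, hr0⟩ : ∃ r, r = Real.sqrt L := ⟨_, rfl⟩
  have hrL : r ^ 2 = L := by rw [hr0]; exact Real.sq_sqrt hL0.le
  have hr1 : 0 < r := by rw [hr0]; exact Real.sqrt_pos.2 hL0
  rw [← hr0] at hKL
  obtain ⟨κ, hκ⟩ : ∃ κ, κ = θ * H := ⟨_, rfl⟩
  have hκr : 10 * r ≤ κ := by
    rw [hκ]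
    have e1 : 10 ≤ θ * K := by
      rw [div_le_iff₀ hθ0] at k5; linarith
    calc 10 * r ≤ θ * K * r := mul_le_mul_of_nonneg_right e1 hr1.le
      _ = θ * (K * r) := by ring
      _ ≤ θ * H := mul_le_mul_of_nonneg_left hKL hθ0.le
  have hκ1 : 0 < κ := by linarith
  have hκκ : κ0 ≤ κ := by
    rw [hκ]
    rw [div_le_iff₀ hθ0] at k4
    calc κ0 ≤ K * θ := k4
      _ ≤ H * θ := mul_le_mul_of_nonneg_right hKH hθ0.le
      _ = _ := mul_comm _ _
  have hκd : κ ≤ d0 * H := by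
    rw [hκ]; exact mul_le_mul_of_nonneg_right hθd hH0.le
  obtain ⟨ρ, hρ⟩ : ∃ ρ, ρ = 3 * r / κ := ⟨_, rfl⟩
  have hρ0 : 0 < ρ := by rw [hρ]; positivity
  have hρ1 : ρ ≤ 1 := by rw [hρ, div_le_one hκ1]; linarith
  have hκρ : κ * ρ = 3 * r := by rw [hρ]; field_simp
  have hκρ2 : -(κ * ρ) ^ 2 / 2 = -(9 / 2 * L) := by rw [hκρ, ← hrL]; ring
  obtain ⟨W, hWd⟩ : ∃ W : ℝ, W = ((FF d ψ).card : ℝ) := ⟨_, rfl⟩
  have hW0 : 0 ≤ W := by rw [hWd]; exact Nat.cast_nonneg _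
  -- the length of the blocks
  have hlen : q.divisors.card * (12 * ρ * Real.exp (u + s * h / 4 * L)) ≤ δ * (FF d ψ).card := by
    obtain ⟨τ, hτ⟩ : ∃ τ : ℝ, τ = (q.divisors.card : ℝ) := ⟨_, rfl⟩
    rw [← hτ, ← hWd]
    have hτ0 : 0 ≤ τ := by rw [hτ]; exact Nat.cast_nonneg _
    have hdW : (d : ℝ) ≤ τ ^ 2 * W := by
      rw [hτ, hWd]
      exact_mod_cast FF_card hd ψ hψ
    have hτC : τ ≤ Cd * Real.exp (s * h / 16 * L) := by
      rw [hτ]
      refine (hdiv q hq0).trans ?_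
      refine mul_le_mul_of_nonneg_left ?_ hCd.le
      rw [Real.rpow_def_of_pos hqpos]
      apply Real.exp_le_exp.2
      have e1 : Real.log q ≤ L := by
        rw [hL]
        apply Real.log_le_log hqpos
        exact le_mul_of_one_le_right hqpos.le hT1
      have e2 : 0 ≤ s * h / 16 := by positivity
      calc Real.log q * (s * h / 16) ≤ L * (s * h / 16) := mul_le_mul_of_nonneg_right e1 e2
        _ = _ := by ring
    have hτ3 : τ ^ 3 ≤ Cd ^ 3 * Real.exp (3 / 16 * (s * h) * L) := by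
      have e1 := pow_le_pow_left₀ hτ0 hτC 3
      refine e1.trans (le_of_eq ?_)
      rw [mul_pow, ← Real.exp_nat_mul]
      congr 2
      push_cast
      ring
    have e1 : Real.exp (u + s * h / 4 * L) ≤ (d * H) * Real.exp (-(3 / 4 * (s * h) * L)) := by
      refine (Real.exp_le_exp.2 hexp1).trans ?_
      rw [Real.exp_add]
      refine mul_le_mul_of_nonneg_right ?_ (Real.exp_pos _).le
      refine le_trans (le_of_eq ?_) hhT
      rw [Real.rpow_def_of_pos hqT, ← hL, mul_comm]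
    have hE : 0 < Real.exp (-(3 / 4 * (s * h) * L)) := Real.exp_pos _
    have hrL2 : r ≤ L ^ 2 := by
      have : 1 ≤ r := by
        by_contra hcon
        push Not at hcon
        nlinarith
      nlinarith
    calc τ * (12 * ρ * Real.exp (u + s * h / 4 * L))
        ≤ τ * (12 * ρ * ((d * H) * Real.exp (-(3 / 4 * (s * h) * L)))) := by gcongr
      _ = τ * (36 / θ * r * d * Real.exp (-(3 / 4 * (s * h) * L))) := by
          rw [hρ, hκ]; field_simp; ring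
      _ ≤ τ * (36 / θ * L ^ 2 * (τ ^ 2 * W) * Real.exp (-(3 / 4 * (s * h) * L))) := by gcongr
      _ = τ ^ 3 * (36 / θ * L ^ 2 * Real.exp (-(3 / 4 * (s * h) * L)) * W) := by ring
      _ ≤ (Cd ^ 3 * Real.exp (3 / 16 * (s * h) * L)) *
            (36 / θ * L ^ 2 * Real.exp (-(3 / 4 * (s * h) * L)) * W) := by gcongr
      _ = 3 * Cd ^ 3 / θ * (12 * L ^ 2 * (Real.exp (3 / 16 * (s * h) * L) *
            Real.exp (-(3 / 4 * (s * h) * L)))) * W := by ring
      _ = 3 * Cd ^ 3 / θ * (12 * L ^ 2 * Real.exp (-(3 / 4 * (3 / 4 * (s * h)) * L))) * W := by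
          rw [← Real.exp_add]
          congr 5
          ring
      _ ≤ 3 * Cd ^ 3 / θ * (2 * δ * θ / (3 * Cd ^ 3) / 2) * W := by gcongr
      _ = δ * W := by field_simp
  have hWs : ∑ _i ∈ FF d ψ, (1 : ℝ) = W := by
    rw [hWd, Finset.sum_const, nsmul_eq_mul, mul_one]
  have hω : ∀ i ∈ FF d ψ, 0 ≤ (fun _ : DirichletCharacter ℂ q => (1 : ℝ)) i :=
    fun i _ => zero_le_one
  have hz : ∀ (i : DirichletCharacter ℂ q) (p : ℕ),
      ‖(fun (i : DirichletCharacter ℂ q) (p : ℕ) => i (p : ZMod q)) i p‖ ≤ 1 :=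
    fun i p => DirichletCharacter.norm_le_one _ _
  -- kernel estimate
  have hker := hg (DirichletCharacter ℂ q) ℕ (FF d ψ) (fun _ => 1)
    (fun i p => i (p : ZMod q)) P (fun p => Real.log p) ((1 + δ) * W) κ ρ hω hz hκ1 hρ0
    (by positivity) (fun v x hx => by
      rw [hP, hWd]
      exact block_est hd ψ (s * h / 4) L u ρ hρ0 hρ1 hlen v x hx)
  rw [hWs, hκρ2] at hker
  obtain ⟨A, hA⟩ : ∃ A, A = (1 + δ) * ((1 + δ) * W) + δ * W := ⟨_, rfl⟩
  have hA0 : 0 ≤ A := by rw [hA]; positivity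
  have hker2 : ∀ x : ℕ → ℂ, ∑ i ∈ FF d ψ, (1 : ℝ) *
      (∑ p ∈ P, ∑ r ∈ P, (i (p : ZMod q) * x p) *
        (starRingEnd ℂ) (i (r : ZMod q) * x r) *
        ((Real.exp (-(κ ^ 2 * (Real.log p - Real.log r) ^ 2 / 4)) : ℝ) : ℂ)).re ≤
      A * ∑ p ∈ P, ‖x p‖ ^ 2 := by
    intro x
    refine (hker x).trans ?_
    refine mul_le_mul_of_nonneg_right ?_ (Finset.sum_nonneg fun _ _ => by positivity)
    rw [hA]
    have e1 : Cg * W * P.card * Real.exp (-(9 / 2 * L)) ≤ δ * W := by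
      calc _ ≤ Cg * W * Real.exp (3 * L) * Real.exp (-(9 / 2 * L)) := by gcongr
        _ = (Cg * (Real.exp (3 * L) * Real.exp (-(9 / 2 * L)))) * W := by ring
        _ = (Cg * Real.exp (-(3 / 2 * L))) * W := by
            rw [← Real.exp_add]
            congr 3
            ring
        _ ≤ _ := mul_le_mul_of_nonneg_right t2 hW0
    linarith
  -- the coefficients
  obtain ⟨y, hy⟩ : ∃ y : ℕ → ℂ, y = fun p => ((yy p : ℝ) : ℂ) * (p : ℂ) ^ (-(I * t0)) := ⟨_, rfl⟩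
  have hynorm : ∀ p ∈ P, ‖y p‖ = |yy p| := by
    intro p hp
    rw [hP] at hp
    have hpp := (mem_PP hp).1.pos
    rw [hy]
    simp only
    rw [norm_mul, Complex.norm_natCast_cpow_of_pos hpp, Complex.norm_real, Real.norm_eq_abs]
    have : (-(I * (t0 : ℂ))).re = 0 := by simp
    rw [this, Real.rpow_zero, mul_one]
  -- window lemma
  have hwin1 := hw (DirichletCharacter ℂ q) ℕ (FF d ψ) (fun _ => 1)
    (fun i p => i (p : ZMod q)) P (fun p => Real.log p) y A κ H u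
    hω hz (fun p _ => Real.log_natCast_nonneg p) hκκ hκd hA0 hker2
  -- the pointwise bound
  obtain ⟨M, hM⟩ : ∃ M : DirichletCharacter ℂ q → ℝ → ℂ, M = fun i t => ∑ p ∈ P,
    i (p : ZMod q) * y p * bt H u t (Real.log p) := ⟨_, rfl⟩
  have hpt : ∀ t : ℝ, ∑ χ ∈ FF d ψ, (1 : ℝ) * ‖∑' n : ℕ, aS (fun n => χ (n : ZMod q) *
        (ArithmeticFunction.vonMangoldt n : ℂ)) t0 n *
          ((Real.sqrt n : ℂ)⁻¹ * bt H u t (Real.log n))‖ ^ 2 ≤
      (1 + δ) * ∑ i ∈ FF d ψ, (1 : ℝ) * ‖M i t‖ ^ 2 +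
        (1 + 1 / δ) * (CR ^ 2 * W) * wt H t ^ 2 := by
    intro t
    have hwn := wt_nonneg H t hH0.le
    have hk : ∀ i ∈ FF d ψ, (1 : ℝ) * ‖∑' n : ℕ, aS (fun n => i (n : ZMod q) *
        (ArithmeticFunction.vonMangoldt n : ℂ)) t0 n *
          ((Real.sqrt n : ℂ)⁻¹ * bt H u t (Real.log n))‖ ^ 2 ≤
        1 * ((1 + δ) * ‖M i t‖ ^ 2 + (1 + 1 / δ) * (CR * wt H t) ^ 2) := by
      intro i hi
      refine mul_le_mul_of_nonneg_left ?_ zero_le_one
      have h1 := hr L u H t (aS (fun n => i (n : ZMod q) *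
        (ArithmeticFunction.vonMangoldt n : ℂ)) t0) t5 hu0 huL hH0.le (fun n => by
          apply aS_norm
          intro n
          rw [norm_mul, Complex.norm_real, Real.norm_eq_abs,
            abs_of_nonneg ArithmeticFunction.vonMangoldt_nonneg]
          exact mul_le_of_le_one_left ArithmeticFunction.vonMangoldt_nonneg
            (DirichletCharacter.norm_le_one _ _))
      have h2 : ∑ p ∈ PP 0 (s * h / 4) L u, aS (fun n => i (n : ZMod q) *
          (ArithmeticFunction.vonMangoldt n : ℂ)) t0 p *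
          ((Real.sqrt p : ℂ)⁻¹ * bt H u t (Real.log p)) = M i t := by
        rw [hM, ← hP]
        refine Finset.sum_congr rfl fun p hp => ?_
        rw [hy]
        unfold aS yy
        push_cast
        rw [div_eq_mul_inv]
        ring
      rw [h2] at h1
      have h3 := norm_le_norm_add_norm_sub' (∑' n : ℕ, aS (fun n => i (n : ZMod q) *
        (ArithmeticFunction.vonMangoldt n : ℂ)) t0 n *
        ((Real.sqrt n : ℂ)⁻¹ * bt H u t (Real.log n)))
        (M i t)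
      exact (pow_le_pow_left₀ (norm_nonneg _) (h3.trans (add_le_add le_rfl h1)) 2).trans
        (sq_add_le hδ0 _ _)
    refine (Finset.sum_le_sum hk).trans (le_of_eq ?_)
    rw [Finset.mul_sum, ← hWs, Finset.mul_sum, Finset.mul_sum, Finset.sum_mul,
      ← Finset.sum_add_distrib]
    refine Finset.sum_congr rfl fun i _ => ?_
    ring
  -- integrability
  have hTκ : H ≤ Real.exp (H ^ 2) := by
    have := Real.add_one_le_exp (H ^ 2)
    nlinarith
  have hMi : ∀ i : DirichletCharacter ℂ q, Integrable (fun t => ‖M i t‖ ^ 2) := by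
    intro i
    rw [hM]
    exact main_sum_integrable P (fun p => i (p : ZMod q) * y p)
      (fun p => Real.log p) hH1 hH1 hTκ
  have hi1 : Integrable (fun t => ∑ i ∈ FF d ψ, (1 : ℝ) * ‖M i t‖ ^ 2) :=
    integrable_finsetSum _ fun i _ => (hMi i).const_mul _
  have hi2 : Integrable (fun t => wt H t ^ 2) := (hwt H hH0.le).1
  have hint : Integrable (fun t => (1 + δ) * ∑ i ∈ FF d ψ, (1 : ℝ) * ‖M i t‖ ^ 2 +
      (1 + 1 / δ) * (CR ^ 2 * W) * wt H t ^ 2) := (hi1.const_mul _).add (hi2.const_mul _)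
  refine (integral_mono_of_nonneg (Eventually.of_forall fun t =>
    Finset.sum_nonneg fun χ _ => by positivity) hint
    (Eventually.of_forall hpt)).trans ?_
  rw [integral_add (hi1.const_mul _) (hi2.const_mul _), integral_const_mul, integral_const_mul]
  have s1 : ∑ p ∈ P, ‖y p‖ ^ 2 * Real.exp (-(u - Real.log p) ^ 2) ≤
      Pool.Agent.N7.MainC.inner 1 u := by
    have h1 := (Pool.Agent.N7.MainC.inner_summable (c := 1) one_pos u).sum_le_tsum P
      (fun n _ => by positivity)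
    unfold Pool.Agent.N7.MainC.inner
    rw [one_pow, one_mul]
    refine le_trans (le_of_eq (Finset.sum_congr rfl fun p hp => ?_)) h1
    rw [hynorm p hp, sq_abs, yy_sq, one_mul]
  have s2 : ∑ p ∈ P, ‖y p‖ ^ 2 * Real.exp (-(u - Real.log p) ^ 2 / 2) ≤
      C5 * (u + 1) := by
    obtain ⟨h1, h2⟩ := hcr u hu0
    refine le_trans ?_ h2
    refine le_trans (le_of_eq (Finset.sum_congr rfl fun p hp => ?_)) (h1.sum_le_tsum P
      (fun n _ => by positivity))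
    rw [hynorm p hp, sq_abs, yy_sq]
  have s3 : Real.exp (-κ ^ 2 / 16) * (∑ p ∈ P, ‖y p‖) ^ 2 ≤ 4 := by
    have h1 : ∑ p ∈ P, ‖y p‖ ≤ 2 * Real.exp (3 * L) := by
      have h2 : ∑ p ∈ P, ‖y p‖ ≤ ∑ _p ∈ P, (2 : ℝ) :=
        Finset.sum_le_sum fun p hp => by
          rw [hynorm p hp]; exact yy_abs p
      rw [Finset.sum_const, nsmul_eq_mul] at h2
      linarith
    have h4 : (∑ p ∈ P, ‖y p‖) ^ 2 ≤ (2 * Real.exp (3 * L)) ^ 2 :=
      pow_le_pow_left₀ (Finset.sum_nonneg fun p _ => norm_nonneg _) h1 2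
    have h5 : Real.exp (-κ ^ 2 / 16) ≤ Real.exp (-(6 * L)) := by
      apply Real.exp_le_exp.2
      have : (10 * r) ^ 2 ≤ κ ^ 2 := pow_le_pow_left₀ (by positivity) hκr 2
      have e1 : (10 * r) ^ 2 = 100 * L := by rw [← hrL]; ring
      linarith
    calc _ ≤ Real.exp (-(6 * L)) * (2 * Real.exp (3 * L)) ^ 2 :=
          mul_le_mul h5 h4 (by positivity) (Real.exp_pos _).le
      _ = 4 * Real.exp (-(6 * L) + (3 * L + 3 * L)) := by
          rw [Real.exp_add, Real.exp_add]; ring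
      _ = 4 := by
          have : -(6 * L) + (3 * L + 3 * L) = 0 := by ring
          rw [this, Real.exp_zero, mul_one]
  have hwtI := (hwt H hH0.le).2
  have hTp : 0 ≤ H / (2 * Real.pi) := by positivity
  have hI1n := Pool.Agent.N7.MainC.inner_nonneg 1 u
  have hwin2 : ∫ t : ℝ, ∑ i ∈ FF d ψ, (1 : ℝ) * ‖M i t‖ ^ 2 ≤
      (1 + δ) * A * (H / (2 * Real.pi)) * Pool.Agent.N7.MainC.inner 1 u +
      C2 * A * κ * (C5 * (u + 1)) + C2 * W * H * 4 := by
    rw [hM]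
    refine hwin1.trans ?_
    have b1 := mul_le_mul_of_nonneg_left s1 (show 0 ≤ (1 + δ) * A * (H / (2 * Real.pi)) by positivity)
    have b2 := mul_le_mul_of_nonneg_left s2 (show 0 ≤ C2 * A * κ by positivity)
    have b3 := mul_le_mul_of_nonneg_left s3 (show 0 ≤ C2 * W * H by positivity)
    rw [hWs]
    have b4 : C2 * W * H * Real.exp (-κ ^ 2 / 16) * (∑ p ∈ P, ‖y p‖) ^ 2 =
      C2 * W * H * (Real.exp (-κ ^ 2 / 16) * (∑ p ∈ P, ‖y p‖) ^ 2) := by ring
    rw [b4]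
    linarith
  have hfin := num_msS (δ := δ) (s := s) (Tp := H / (2 * Real.pi))
    (I1 := Pool.Agent.N7.MainC.inner 1 u) (C2 := C2) (C5 := C5)
    (u := u) (T := H) (W := W) (CR := CR) (C3 := C3) (κ := κ)
    hδ0 hδ hs1 hTp hI1n hC2 hC5 hu0 hκ hθ0 hθ1 hH1 hW0 hCR hC3
  rw [← hA] at hfin
  rw [← hWd]
  refine le_trans ?_ hfin
  refine add_le_add (mul_le_mul_of_nonneg_left hwin2 (by linarith)) ?_
  exact mul_le_mul_of_nonneg_left hwtI (by positivity)

end Pool.Agent.D0H77.ES
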